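import Mathlib

/-!
The Lucchesi-Younger theorem for a finite set `E` of arcs of an arbitrary digraph: the maximum
number of disjoint dicuts contained in `E` is the minimum number of arcs meeting all of them
(Lovasz' proof).
-/

namespace Pool.Agent.LY

variable {V A : Type*}

/-- No arc enters `X`. -/
def Closed (tail head : A → V) (X : Set V) : Prop := ∀ a, head a ∈ X → tail a ∈ X

/-- The arcs leaving `X`. -/
def cut (tail head : A → V) (X : Set V) : Set A := {a | tail a ∈ X ∧ head a ∉ X}

/-- `X` is closed and some arc leaves it. -/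
def Dc (tail head : A → V) (X : Set V) : Prop := Closed tail head X ∧ (cut tail head X).Nonempty

open Classical in
/-- the number of sets of the family whose cut contains `a` -/
noncomputable def load (tail head : A → V) {m : ℕ} (X : Fin m → Set V) (a : A) : ℕ :=
  ∑ i, if a ∈ cut tail head (X i) then 1 else 0

/-- there is a family of `m` closed sets with nonempty cuts and load at most `w` -/
def Fam (tail head : A → V) (w : A → ℕ) (m : ℕ) : Prop :=
  ∃ X : Fin m → Set V, (∀ i, Dc tail head (X i)) ∧ ∀ a, load tail head X a ≤ w a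

section

variable {tail head : A → V}

theorem Closed.inter {X Y : Set V} (hX : Closed tail head X) (hY : Closed tail head Y) :
    Closed tail head (X ∩ Y) := fun a h => ⟨hX a h.1, hY a h.2⟩

theorem Closed.union {X Y : Set V} (hX : Closed tail head X) (hY : Closed tail head Y) :
    Closed tail head (X ∪ Y) := by
  rintro a (h | h)
  · exact Or.inl (hX a h)
  · exact Or.inr (hY a h)

open Classical in
theorem modular {X Y : Set V} (hX : Closed tail head X) (hY : Closed tail head Y) (a : A) :
    ((if a ∈ cut tail head (X ∩ Y) then 1 else 0) + (if a ∈ cut tail head (X ∪ Y) then 1 else 0) : ℕ) =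
      (if a ∈ cut tail head X then 1 else 0) + (if a ∈ cut tail head Y then 1 else 0) := by
  have h1 := hX a
  have h2 := hY a
  simp only [cut, Set.mem_ofPred_eq, Set.mem_inter_iff, Set.mem_union]
  by_cases t1 : tail a ∈ X <;> by_cases t2 : tail a ∈ Y <;> by_cases k1 : head a ∈ X <;>
    by_cases k2 : head a ∈ Y <;> simp_all

/-- sums after changing two members -/
theorem sum_update2 {m : ℕ} (g : Set V → ℕ) (Y : Fin m → Set V) {i j : Fin m} (hij : i ≠ j)
    (p q : Set V) :
    (∑ k, g (Function.update (Function.update Y i p) j q k)) + (g (Y i) + g (Y j)) =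
      (∑ k, g (Y k)) + (g p + g q) := by
  classical
  have hi : i ∈ (Finset.univ : Finset (Fin m)).erase j := Finset.mem_erase.2 ⟨hij, Finset.mem_univ _⟩
  rw [← Finset.add_sum_erase _ _ (Finset.mem_univ j), ← Finset.add_sum_erase _ _ hi]
  rw [← Finset.add_sum_erase Finset.univ (fun k => g (Y k)) (Finset.mem_univ j),
    ← Finset.add_sum_erase _ (fun k => g (Y k)) hi]
  rw [Function.update_self, Function.update_of_ne hij, Function.update_self]
  have : ∑ x ∈ (Finset.univ.erase j).erase i, g (Function.update (Function.update Y i p) j q x) =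
      ∑ x ∈ (Finset.univ.erase j).erase i, g (Y x) := by
    apply Finset.sum_congr rfl
    intro x hx
    rw [Finset.mem_erase, Finset.mem_erase] at hx
    rw [Function.update_of_ne hx.2.1, Function.update_of_ne hx.1]
  rw [this]
  ring

/-- cross-free on `P` -/
def CrossFree (tail head : A → V) (P : Finset V) {m : ℕ} (Y : Fin m → Set V) : Prop :=
  ∀ i j, Y j ∩ ↑P ⊆ Y i ∨ Y i ∩ ↑P ⊆ Y j ∨ cut tail head (Y i ∩ Y j) = ∅ ∨
    cut tail head (Y i ∪ Y j) = ∅

theorem card_sq {P : Finset V} {X Y : Set V} (h1 : ¬ Y ∩ ↑P ⊆ X) (h2 : ¬ X ∩ ↑P ⊆ Y) :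
    (X ∩ ↑P).ncard ^ 2 + (Y ∩ ↑P).ncard ^ 2 <
      ((X ∩ Y) ∩ ↑P).ncard ^ 2 + ((X ∪ Y) ∩ ↑P).ncard ^ 2 := by
  classical
  have f1 : (X ∩ ↑P).Finite := P.finite_toSet.subset Set.inter_subset_right
  have f2 : (Y ∩ ↑P).Finite := P.finite_toSet.subset Set.inter_subset_right
  have e1 : (X ∩ Y) ∩ (P : Set V) = (X ∩ ↑P) ∩ (Y ∩ ↑P) := by
    ext x; simp only [Set.mem_inter_iff]; tauto
  have e2 : (X ∪ Y) ∩ (P : Set V) = (X ∩ ↑P) ∪ (Y ∩ ↑P) := by
    ext x; simp only [Set.mem_inter_iff, Set.mem_union]; tauto
  have hsum := Set.ncard_union_add_ncard_inter (X ∩ ↑P) (Y ∩ ↑P) f1 f2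
  have l1 : ((X ∩ ↑P) ∩ (Y ∩ ↑P)).ncard < (X ∩ ↑P).ncard := by
    apply Set.ncard_lt_ncard _ f1
    refine ⟨Set.inter_subset_left, fun hc => h2 ?_⟩
    intro x hx
    exact (hc hx).2.1
  have l2 : ((X ∩ ↑P) ∩ (Y ∩ ↑P)).ncard < (Y ∩ ↑P).ncard := by
    apply Set.ncard_lt_ncard _ f2
    refine ⟨Set.inter_subset_right, fun hc => h1 ?_⟩
    intro x hx
    exact (hc hx).1.1
  rw [e1, e2]
  set x := (X ∩ ↑P).ncard
  set y := (Y ∩ ↑P).ncard
  set z := ((X ∩ ↑P) ∩ (Y ∩ ↑P)).ncard
  set u := ((X ∩ ↑P) ∪ (Y ∩ ↑P)).ncard
  obtain ⟨p, hp⟩ := Nat.exists_eq_add_of_lt l1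
  obtain ⟨q, hq⟩ := Nat.exists_eq_add_of_lt l2
  have hu : u = z + p + q + 2 := by omega
  rw [hu, hp, hq]
  nlinarith

theorem uncross (P : Finset V) {m : ℕ} : ∀ (n : ℕ) (X : Fin m → Set V),
    m * P.card ^ 2 - ∑ i, (X i ∩ ↑P).ncard ^ 2 ≤ n → (∀ i, Dc tail head (X i)) →
    ∃ Y : Fin m → Set V, (∀ i, Dc tail head (Y i)) ∧ CrossFree tail head P Y ∧
      ∀ a, load tail head Y a = load tail head X a := by
  classical
  have hbound : ∀ Y : Fin m → Set V, ∑ i, (Y i ∩ ↑P).ncard ^ 2 ≤ m * P.card ^ 2 := by
    intro Y
    calc ∑ i, (Y i ∩ ↑P).ncard ^ 2 ≤ ∑ _i : Fin m, P.card ^ 2 := by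
          apply Finset.sum_le_sum
          intro i _
          apply Nat.pow_le_pow_left
          rw [← Set.ncard_coe_finset]
          exact Set.ncard_le_ncard Set.inter_subset_right P.finite_toSet
      _ = m * P.card ^ 2 := by simp
  intro n
  induction n with
  | zero =>
    intro X hX hD
    refine ⟨X, hD, ?_, fun _ => rfl⟩
    intro i j
    by_contra hcon
    push Not at hcon
    obtain ⟨c1, c2, c3, c4⟩ := hcon
    have hij : i ≠ j := by rintro rfl; exact c1 Set.inter_subset_left
    have := sum_update2 (fun S => (S ∩ ↑P).ncard ^ 2) X hij (X i ∩ X j) (X i ∪ X j)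
    have k1 := card_sq c1 c2
    have k2 := hbound (Function.update (Function.update X i (X i ∩ X j)) j (X i ∪ X j))
    beta_reduce at this
    omega
  | succ n ih =>
    intro X hX hD
    by_cases hcf : CrossFree tail head P X
    · exact ⟨X, hD, hcf, fun _ => rfl⟩
    unfold CrossFree at hcf
    push Not at hcf
    obtain ⟨i, j, c1, c2, c3, c4⟩ := hcf
    have hij : i ≠ j := by rintro rfl; exact c1 Set.inter_subset_left
    have hΦ := sum_update2 (fun S => (S ∩ ↑P).ncard ^ 2) X hij (X i ∩ X j) (X i ∪ X j)
    have k1 := card_sq c1 c2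
    beta_reduce at hΦ
    set X' : Fin m → Set V := Function.update (Function.update X i (X i ∩ X j)) j (X i ∪ X j) with hX'
    have k2 := hbound X'
    obtain ⟨Y, y1, y2, y3⟩ := ih X' (by omega) (by
      intro k
      by_cases hkj : k = j
      · subst hkj
        rw [hX', Function.update_self]
        exact ⟨(hD i).1.union (hD k).1, c4⟩
      by_cases hki : k = i
      · subst hki
        rw [hX', Function.update_of_ne hkj, Function.update_self]
        exact ⟨(hD k).1.inter (hD j).1, c3⟩
      rw [hX', Function.update_of_ne hkj, Function.update_of_ne hki]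
      exact hD k)
    refine ⟨Y, y1, y2, fun a => ?_⟩
    rw [y3 a]
    have h1 := sum_update2 (fun S => if a ∈ cut tail head S then 1 else 0) X hij (X i ∩ X j) (X i ∪ X j)
    have h2 := modular (hD i).1 (hD j).1 a
    beta_reduce at h1
    unfold load
    rw [← hX'] at h1
    omega

/-- counting numbers of given parity below `2 w` -/
theorem card_parity (w l r : ℕ) (hr : r < 2) :
    ((Finset.range (2 * w)).filter (fun x => (l + x) % 2 = r)).card = w := by
  induction w with
  | zero => simp
  | succ w ih =>
    have : 2 * (w + 1) = 2 * w + 1 + 1 := by ring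
    rw [this, Finset.range_add_one, Finset.range_add_one, Finset.filter_insert, Finset.filter_insert]
    have hn1 : 2 * w ∉ (Finset.range (2 * w)).filter (fun x => (l + x) % 2 = r) := by simp
    have hn2 : 2 * w + 1 ∉ insert (2 * w) ((Finset.range (2 * w)).filter (fun x => (l + x) % 2 = r)) := by
      simp
    have hn3 : 2 * w + 1 ∉ (Finset.range (2 * w)).filter (fun x => (l + x) % 2 = r) := by simp
    by_cases h1 : (l + 2 * w) % 2 = r
    · have h2 : ¬ (l + (2 * w + 1)) % 2 = r := by omega
      rw [if_pos h1, if_neg h2, Finset.card_insert_of_notMem hn1, ih]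
    · have h2 : (l + (2 * w + 1)) % 2 = r := by omega
      rw [if_neg h1, if_pos h2, Finset.card_insert_of_notMem hn3, ih]

open Classical in
/-- the colour classes of a cross-free family -/
theorem colouring (P : Finset V) (E : Finset A) (hP : ∀ a ∈ E, tail a ∈ P ∧ head a ∈ P)
    (w : A → ℕ) (hw : ∀ a ∉ E, w a = 0) {m : ℕ} (Y : Fin m → Set V)
    (hD : ∀ i, Dc tail head (Y i)) (hY : CrossFree tail head P Y)
    (hload : ∀ a, load tail head Y a ≤ 2 * w a) :
    ∃ q : Fin m → ℕ, ∀ a, ∀ r < 2,
      (Finset.univ.filter (fun i => q i % 2 = r ∧ a ∈ cut tail head (Y i))).card ≤ w a := by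
  classical
  have hE : ∀ i, ∀ a ∈ cut tail head (Y i), a ∈ E := by
    intro i a ha
    by_contra hcon
    have h1 := hload a
    rw [hw a hcon, mul_zero] at h1
    unfold load at h1
    have h2 : (if a ∈ cut tail head (Y i) then 1 else 0) ≤
        ∑ i, (if a ∈ cut tail head (Y i) then 1 else 0) :=
      Finset.single_le_sum (f := fun i => if a ∈ cut tail head (Y i) then 1 else 0)
        (fun _ _ => Nat.zero_le _) (Finset.mem_univ i)
    rw [if_pos ha] at h2
    omega
  -- the order
  let before : Fin m → Fin m → Prop := fun j i =>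
    Y j ∩ ↑P ⊆ Y i ∧ (Y i ∩ ↑P ⊆ Y j → j < i)
  have btrans : ∀ i j k, before i j → before j k → before i k := by
    rintro i j k ⟨h1, h2⟩ ⟨h3, h4⟩
    refine ⟨fun x hx => h3 ⟨h1 hx, hx.2⟩, fun h5 => ?_⟩
    have e1 : Y j ∩ ↑P ⊆ Y i := fun x hx => h5 ⟨h3 hx, hx.2⟩
    have e2 : Y k ∩ ↑P ⊆ Y j := fun x hx => h1 ⟨h5 hx, hx.2⟩
    exact lt_trans (h2 e1) (h4 e2)
  have birr : ∀ i, ¬ before i i := fun i h => lt_irrefl _ (h.2 h.1)
  let q : Fin m → ℕ := fun i =>
    ∑ j, ((if before j i then 1 else 0) + (if cut tail head (Y i ∩ Y j) = ∅ then 1 else 0))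
  have hq : ∀ a i, a ∈ cut tail head (Y i) → q i = (∑ j, if tail a ∈ Y j then 0 else 1) +
      ∑ j, (if a ∈ cut tail head (Y j) ∧ before j i then 1 else 0) := by
    intro a i ha
    have haE := hP a (hE i a ha)
    rw [← Finset.sum_add_distrib]
    apply Finset.sum_congr rfl
    intro j _
    by_cases hC : cut tail head (Y i ∩ Y j) = ∅
    · have ht : tail a ∉ Y j := by
        intro ht
        have : a ∈ cut tail head (Y i ∩ Y j) := ⟨⟨ha.1, ht⟩, fun h => ha.2 h.1⟩
        rw [hC] at this
        exact this
      have hb : ¬ before j i := by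
        rintro ⟨h1, -⟩
        obtain ⟨b, hb⟩ := (hD j).2
        have : b ∈ cut tail head (Y i ∩ Y j) :=
          ⟨⟨h1 ⟨hb.1, (hP b (hE j b hb)).1⟩, hb.1⟩, fun h => hb.2 h.2⟩
        rw [hC] at this
        exact this
      have hb2 : ¬ (a ∈ cut tail head (Y j) ∧ before j i) := fun h => hb h.2
      rw [if_neg hb, if_pos hC, if_neg ht, if_neg hb2]
    · rw [if_neg hC, add_zero]
      by_cases hb : before j i
      · have hh : head a ∉ Y j := fun h => ha.2 (hb.1 ⟨h, haE.2⟩)
        rw [if_pos hb]
        by_cases ht : tail a ∈ Y j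
        · rw [if_pos ht, if_pos ⟨⟨ht, hh⟩, hb⟩]
        · have ht2 : ¬ (a ∈ cut tail head (Y j) ∧ before j i) := fun h => ht h.1.1
          rw [if_neg ht, if_neg ht2]
      · have hb2 : ¬ (a ∈ cut tail head (Y j) ∧ before j i) := fun h => hb h.2
        rw [if_neg hb, if_neg hb2, add_zero]
        have ht : tail a ∈ Y j := by
          rcases hY i j with h1 | h1 | h1 | h1
          · by_contra ht
            apply hb
            exact ⟨h1, fun h2 => absurd (h2 ⟨ha.1, haE.1⟩) ht⟩
          · exact h1 ⟨ha.1, haE.1⟩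
          · exact absurd h1 hC
          · by_contra ht
            have : a ∈ cut tail head (Y i ∪ Y j) := by
              refine ⟨Or.inl ha.1, ?_⟩
              rintro (h2 | h2)
              · exact ha.2 h2
              · exact ht ((hD j).1 a h2)
            rw [h1] at this
            exact this
        rw [if_pos ht]
  refine ⟨q, ?_⟩
  intro a r hr
  let I : Finset (Fin m) := Finset.univ.filter (fun i => a ∈ cut tail head (Y i))
  have hI : I.card ≤ 2 * w a := by
    have := hload a
    unfold load at this
    rwa [← Finset.card_filter] at this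
  let rank : Fin m → ℕ := fun i => ∑ j, (if a ∈ cut tail head (Y j) ∧ before j i then 1 else 0)
  have hrank : ∀ i, rank i = (I.filter (fun j => before j i)).card := by
    intro i
    show (∑ j, (if a ∈ cut tail head (Y j) ∧ before j i then 1 else 0)) = _
    rw [← Finset.card_filter, Finset.filter_filter]
  have htot : ∀ i ∈ I, ∀ j ∈ I, i ≠ j → before i j ∨ before j i := by
    intro i hi j hj hij
    have ai : a ∈ cut tail head (Y i) := (Finset.mem_filter.1 hi).2
    have aj : a ∈ cut tail head (Y j) := (Finset.mem_filter.1 hj).2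
    have n1 : cut tail head (Y i ∩ Y j) ≠ ∅ :=
      Set.nonempty_iff_ne_empty.1 ⟨a, ⟨ai.1, aj.1⟩, fun h => ai.2 h.1⟩
    have n2 : cut tail head (Y i ∪ Y j) ≠ ∅ :=
      Set.nonempty_iff_ne_empty.1 ⟨a, Or.inl ai.1, fun h => h.elim ai.2 aj.2⟩
    rcases hY i j with h1 | h1 | h1 | h1
    · by_cases h2 : Y i ∩ ↑P ⊆ Y j
      · rcases lt_or_gt_of_ne hij with h3 | h3
        · exact Or.inl ⟨h2, fun _ => h3⟩
        · exact Or.inr ⟨h1, fun _ => h3⟩
      · exact Or.inr ⟨h1, fun h => absurd h h2⟩
    · by_cases h2 : Y j ∩ ↑P ⊆ Y i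
      · rcases lt_or_gt_of_ne hij with h3 | h3
        · exact Or.inl ⟨h1, fun _ => h3⟩
        · exact Or.inr ⟨h2, fun _ => h3⟩
      · exact Or.inl ⟨h1, fun h => absurd h h2⟩
    · exact absurd h1 n1
    · exact absurd h1 n2
  have hlt : ∀ i ∈ I, ∀ j ∈ I, before i j → rank i < rank j := by
    intro i hi j hj hij
    rw [hrank, hrank]
    apply Finset.card_lt_card
    refine ⟨?_, ?_⟩
    · intro k hk
      rw [Finset.mem_filter] at hk ⊢
      exact ⟨hk.1, btrans _ _ _ hk.2 hij⟩
    · intro hc
      have : i ∈ I.filter (fun k => before k i) := hc (Finset.mem_filter.2 ⟨hi, hij⟩)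
      exact birr i (Finset.mem_filter.1 this).2
  calc (Finset.univ.filter (fun i => q i % 2 = r ∧ a ∈ cut tail head (Y i))).card
      ≤ ((Finset.range (2 * w a)).filter
          (fun x => ((∑ j, if tail a ∈ Y j then 0 else 1) + x) % 2 = r)).card := by
        apply Finset.card_le_card_of_injOn rank
        · intro i hi
          rw [Finset.mem_coe, Finset.mem_filter] at hi
          obtain ⟨-, hi1, hi2⟩ := hi
          rw [Finset.mem_coe, Finset.mem_filter, Finset.mem_range]
          refine ⟨lt_of_lt_of_le ?_ hI, ?_⟩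
          · rw [hrank]
            apply Finset.card_lt_card
            refine ⟨Finset.filter_subset _ _, fun hc => ?_⟩
            have hiI : i ∈ I := Finset.mem_filter.2 ⟨Finset.mem_univ _, hi2⟩
            exact birr i (Finset.mem_filter.1 (hc hiI)).2
          · rw [hq a i hi2] at hi1
            exact hi1
        · intro i hi j hj hij
          rw [Finset.mem_coe, Finset.mem_filter] at hi hj
          have hiI : i ∈ I := Finset.mem_filter.2 ⟨Finset.mem_univ _, hi.2.2⟩
          have hjI : j ∈ I := Finset.mem_filter.2 ⟨Finset.mem_univ _, hj.2.2⟩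
          by_contra hne
          rcases htot i hiI j hjI hne with h1 | h1
          · exact absurd hij (hlt i hiI j hjI h1).ne
          · exact absurd hij.symm (hlt j hjI i hiI h1).ne
    _ = w a := card_parity _ _ _ hr

open Classical in
/-- subfamilies -/
theorem Fam.sub {w : A → ℕ} {m n : ℕ} (Y : Fin m → Set V) (hD : ∀ i, Dc tail head (Y i))
    (S : Finset (Fin m)) (hS : n ≤ S.card)
    (hw : ∀ a, (S.filter (fun i => a ∈ cut tail head (Y i))).card ≤ w a) :
    Fam tail head w n := by
  obtain ⟨T, hTS, hT⟩ := Finset.exists_subset_card_eq hS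
  let e := T.equivFinOfCardEq hT
  refine ⟨fun i => Y (e.symm i).1, fun i => hD _, fun a => ?_⟩
  unfold load
  rw [← Finset.card_filter]
  refine le_trans ?_ (hw a)
  apply Finset.card_le_card_of_injOn (fun i => (e.symm i).1)
  · intro i hi
    rw [Finset.mem_coe, Finset.mem_filter] at hi
    rw [Finset.mem_coe, Finset.mem_filter]
    exact ⟨hTS (e.symm i).2, hi.2⟩
  · intro i _ j _ hij
    exact e.symm.injective (Subtype.ext hij)

theorem Fam.mono {w w' : A → ℕ} {m : ℕ} (h : Fam tail head w m) (hw : ∀ a, w a ≤ w' a) :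
    Fam tail head w' m := by
  obtain ⟨X, h1, h2⟩ := h
  exact ⟨X, h1, fun a => (h2 a).trans (hw a)⟩

theorem Fam.le {w : A → ℕ} {m n : ℕ} (h : Fam tail head w m) (hn : n ≤ m) :
    Fam tail head w n := by
  classical
  obtain ⟨X, h1, h2⟩ := h
  refine Fam.sub X h1 Finset.univ (by simpa using hn) (fun a => ?_)
  have := h2 a
  unfold load at this
  rwa [← Finset.card_filter] at this

/-- half-integral packings can be made integral -/
theorem round (E : Finset A) (w : A → ℕ) (hw : ∀ a ∉ E, w a = 0) (k : ℕ)
    (h : Fam tail head (fun a => 2 * w a) (2 * k + 1)) : Fam tail head w (k + 1) := by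
  classical
  obtain ⟨X, h1, h2⟩ := h
  let P : Finset V := E.image tail ∪ E.image head
  obtain ⟨Y, y1, y2, y3⟩ := uncross (tail := tail) (head := head) P _ X le_rfl h1
  obtain ⟨q, hq⟩ := colouring P E (fun a ha => ⟨Finset.mem_union_left _ (Finset.mem_image_of_mem _ ha),
    Finset.mem_union_right _ (Finset.mem_image_of_mem _ ha)⟩) w hw Y y1 y2 (fun a => by
      rw [y3 a]; exact h2 a)
  have hcard : (Finset.univ.filter (fun i : Fin (2 * k + 1) => q i % 2 = 0)).card +
      (Finset.univ.filter (fun i : Fin (2 * k + 1) => q i % 2 = 1)).card = 2 * k + 1 := by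
    have e := Finset.card_filter_add_card_filter_not (s := (Finset.univ : Finset (Fin (2 * k + 1))))
      (fun i => q i % 2 = 0)
    have e' : (Finset.univ.filter (fun i : Fin (2 * k + 1) => ¬ q i % 2 = 0)) =
        (Finset.univ.filter (fun i : Fin (2 * k + 1) => q i % 2 = 1)) := by
      apply Finset.filter_congr
      intro i _
      omega
    rw [e', Finset.card_univ, Fintype.card_fin] at e
    exact e
  rcases Nat.lt_or_ge k (Finset.univ.filter (fun i : Fin (2 * k + 1) => q i % 2 = 0)).card with hk | hk
  · exact Fam.sub Y y1 _ hk (fun a => by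
      rw [Finset.filter_filter]; exact hq a 0 (by norm_num))
  · exact Fam.sub Y y1 (Finset.univ.filter (fun i : Fin (2 * k + 1) => q i % 2 = 1)) (by omega)
      (fun a => by rw [Finset.filter_filter]; exact hq a 1 (by norm_num))

open Classical in
/-- the indicator function of `E` -/
noncomputable def ind (E : Finset A) (a : A) : ℕ := if a ∈ E then 1 else 0

theorem fam_add {w w' : A → ℕ} {m n : ℕ} (h : Fam tail head w m) (h' : Fam tail head w' n) :
    Fam tail head (fun a => w a + w' a) (m + n) := by
  classical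
  obtain ⟨X, h1, h2⟩ := h
  obtain ⟨Y, k1, k2⟩ := h'
  refine ⟨Fin.append X Y, ?_, ?_⟩
  · intro i
    refine Fin.addCases (fun i => ?_) (fun i => ?_) i
    · rw [Fin.append_left]; exact h1 i
    · rw [Fin.append_right]; exact k1 i
  · intro a
    unfold load
    rw [Fin.sum_univ_add]
    simp only [Fin.append_left, Fin.append_right]
    exact add_le_add (h2 a) (k2 a)

theorem fam_zero (w : A → ℕ) : Fam tail head w 0 :=
  ⟨Fin.elim0, fun i => i.elim0, fun a => by simp [load]⟩

/-- a packing is at most as large as a hitting set -/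
theorem le_card_of_hit (E F : Finset A) {k : ℕ} (h : Fam tail head (ind E) k)
    (hF : ∀ X, Dc tail head X → cut tail head X ⊆ ↑E → ∃ a ∈ F, a ∈ cut tail head X) :
    k ≤ F.card := by
  classical
  obtain ⟨X, h1, h2⟩ := h
  have hsub : ∀ i, cut tail head (X i) ⊆ ↑E := by
    intro i a ha
    by_contra hcon
    have h3 := h2 a
    unfold ind at h3
    rw [if_neg (fun h => hcon (Finset.mem_coe.2 h))] at h3
    unfold load at h3
    have h4 := Finset.single_le_sum (f := fun i => if a ∈ cut tail head (X i) then 1 else 0)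
        (fun _ _ => Nat.zero_le _) (Finset.mem_univ i)
    rw [if_pos ha] at h4
    omega
  have hch : ∀ i, ∃ a ∈ F, a ∈ cut tail head (X i) := fun i => hF (X i) (h1 i) (hsub i)
  choose f hf1 hf2 using hch
  have hinj : Function.Injective f := by
    intro i j hij
    by_contra hne
    have h3 := h2 (f i)
    unfold load at h3
    rw [← Finset.card_filter] at h3
    have h4 : ind E (f i) ≤ 1 := by unfold ind; split <;> omega
    have h5 : ({i, j} : Finset (Fin k)) ⊆ Finset.univ.filter (fun l => f i ∈ cut tail head (X l)) := by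
      intro l hl
      rw [Finset.mem_insert, Finset.mem_singleton] at hl
      rw [Finset.mem_filter]
      refine ⟨Finset.mem_univ _, ?_⟩
      rcases hl with rfl | rfl
      · exact hf2 l
      · rw [hij]; exact hf2 l
    have h6 := Finset.card_le_card h5
    rw [Finset.card_pair hne] at h6
    omega
  have := Finset.card_le_card_of_injOn (s := (Finset.univ : Finset (Fin k))) f
    (fun i _ => hf1 i) hinj.injOn
  simpa using this

/-- **Lucchesi-Younger**: in an arbitrary digraph, for a finite set `E` of arcs there are `k`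
disjoint dicuts contained in `E` and a set `F ⊆ E` of at most `k` arcs meeting every dicut
contained in `E`. -/
theorem lucchesi_younger (E : Finset A) : ∃ k : ℕ, Fam tail head (ind E) k ∧
    ∃ F ⊆ E, F.card = k ∧ ∀ X, Dc tail head X → cut tail head X ⊆ ↑E →
      ∃ a ∈ F, a ∈ cut tail head X := by
  classical
  suffices H : ∀ (n : ℕ) (E : Finset A), E.card = n → ∃ k : ℕ, Fam tail head (ind E) k ∧
    ∃ F ⊆ E, F.card ≤ k ∧ ∀ X, Dc tail head X → cut tail head X ⊆ ↑E →
      ∃ a ∈ F, a ∈ cut tail head X by
    obtain ⟨k, h1, F, h2, h3, h4⟩ := H _ E rfl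
    exact ⟨k, h1, F, h2, le_antisymm h3 (le_card_of_hit E F h1 h4), h4⟩
  intro n
  induction n with
  | zero =>
    intro E hE
    rw [Finset.card_eq_zero] at hE
    subst hE
    refine ⟨0, fam_zero _, ∅, by simp, by simp, fun X hX hXE => ?_⟩
    obtain ⟨a, ha⟩ := hX.2
    have := hXE ha
    simp at this
  | succ n ih =>
    intro E hE
    -- the maximum
    obtain ⟨k, hk1, hk2⟩ : ∃ k, Fam tail head (ind E) k ∧ ¬ Fam tail head (ind E) (k + 1) := by
      by_contra hcon
      push Not at hcon
      have hall : ∀ k, Fam tail head (ind E) k := by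
        intro k
        induction k with
        | zero => exact fam_zero _
        | succ k ih => exact hcon k ih
      have := le_card_of_hit E E (hall (E.card + 1)) (fun X hX hXE => by
        obtain ⟨a, ha⟩ := hX.2
        exact ⟨a, hXE ha, ha⟩)
      omega
    by_cases hcase : ∃ b ∈ E, ¬ Fam tail head (ind (E.erase b)) k
    · obtain ⟨b, hb, hbk⟩ := hcase
      obtain ⟨k', h1, F, h2, h3, h4⟩ := ih (E.erase b) (by rw [Finset.card_erase_of_mem hb, hE]; rfl)
      have hk' : k' < k := by
        by_contra hcon
        exact hbk (h1.le (not_lt.1 hcon))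
      refine ⟨k, hk1, insert b F, ?_, ?_, ?_⟩
      · exact Finset.insert_subset hb (h2.trans (Finset.erase_subset _ _))
      · exact (Finset.card_insert_le _ _).trans (by omega)
      · intro X hX hXE
        by_cases hbX : b ∈ cut tail head X
        · exact ⟨b, Finset.mem_insert_self _ _, hbX⟩
        · obtain ⟨a, ha, ha'⟩ := h4 X hX (by
            intro a ha
            rw [Finset.mem_coe, Finset.mem_erase]
            exact ⟨fun h => hbX (h ▸ ha), hXE ha⟩)
          exact ⟨a, Finset.mem_insert_of_mem ha, ha'⟩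
    · push Not at hcase
      rcases Nat.eq_zero_or_pos k with hk0 | hkpos
      · subst hk0
        refine ⟨0, hk1, ∅, by simp, by simp, fun X hX hXE => ?_⟩
        exfalso
        apply hk2
        refine ⟨fun _ => X, fun _ => hX, fun a => ?_⟩
        unfold load ind
        by_cases ha : a ∈ cut tail head X
        · have := hXE ha
          rw [Finset.mem_coe] at this
          simp [ha, this]
        · simp [ha]
      · exfalso
        -- a minimal set `B` of doubled arcs
        have hdouble : Fam tail head (fun a => ind E a + ind E a) (k + 1) :=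
          (fam_add hk1 hk1).le (by omega)
        let Q : ℕ → Prop := fun s => ∃ B ⊆ E, B.card = s ∧
          Fam tail head (fun a => ind E a + ind B a) (k + 1)
        have hQ : ∃ s, Q s := ⟨E.card, E, subset_rfl, rfl, hdouble⟩
        obtain ⟨B, hBE, hBc, hB⟩ := Nat.find_spec hQ
        have hBne : B.Nonempty := by
          by_contra hcon
          rw [Finset.not_nonempty_iff_eq_empty] at hcon
          subst hcon
          apply hk2
          refine hB.mono (fun a => ?_)
          simp [ind]
        obtain ⟨b, hb⟩ := hBne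
        have hmin : ¬ Fam tail head (fun a => ind E a + ind (B.erase b) a) (k + 1) := by
          intro hcon
          have := Nat.find_min' hQ (m := (B.erase b).card)
            ⟨B.erase b, (Finset.erase_subset _ _).trans hBE, rfl, hcon⟩
          rw [← hBc, Finset.card_erase_of_mem hb] at this
          have hpos : 0 < B.card := Finset.card_pos.2 ⟨b, hb⟩
          omega
        apply hmin
        apply round E
        · intro a ha
          have : a ∉ B.erase b := fun h => ha (hBE (Finset.mem_of_mem_erase h))
          simp [ind, ha, this]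
        · have h1 := fam_add hB (hcase b (hBE hb))
          have e : k + 1 + k = 2 * k + 1 := by ring
          rw [e] at h1
          refine h1.mono (fun a => ?_)
          unfold ind
          by_cases hab : a = b
          · subst hab
            simp [hBE hb, hb]
          · by_cases haE : a ∈ E
            · by_cases haB : a ∈ B
              · simp [haE, haB, hab, Finset.mem_erase]
              · simp [haE, haB, hab, Finset.mem_erase]
            · have haB : a ∉ B := fun h => haE (hBE h)
              simp [haE, haB, Finset.mem_erase]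

end

end Pool.Agent.LY
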